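import Mathlib
import Pool.Graph.R_seed8.TH115.GD.Defs
import Pool.Graph.R_seed8.TH115.GD.Defs2
import Pool.Agent.Helper55.TT.FinC

/-!
# No invariant classes on almost all twists of EVERY elliptic surface with a section of order two

Let `k` be a number field, `k'` an algebraic closure, `K = k(t)`, `F = k'(t)`, and let
`E : y² = x (x² + a x + b)`, `a`, `b` polynomials over `k`, be an arbitrary elliptic curve over `K` with a
rational point of order two: there is no condition on `a`, `b` except `b ≠ 0`, `a² - 4 b ≠ 0`. For instance
`E` may have full 2-torsion, bad reduction wherever it wants, a large rank, constant `j`-invariant, or it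
may be a constant curve.

Fix degrees `n₁, ..., n_u ≥ 1`, one of them at least `3`, and let `D₁, ..., D_u`, `deg D_l ≤ n_l`, run
through the polynomials whose coefficients are integers of `k` with coordinates between `-H` and `H`.

Theorem. For all of them, with the exception of a proportion which tends to zero if `H` tends to infinity,
the following holds with `D = D₁ ⋯ D_u`, for all the constants `c ∈ k*` and all the polynomials `h` of odd
degree such that the prime divisors of `b (a² - 4 b)` remain prime after `t ↦ h(t)` (a condition on `E` and
`h`, not on `D`), and such that `h` is monic with coefficients integers of `k` (or, for the other `h`, the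
prime divisors of `D` remain prime after `t ↦ h(t)`): let `E_{cD, h}` be the base change by `h` of the
quadratic twist of `E` by `c D`, the curve `y² = x (x² + c a(h) D(h) x + c² b(h) D(h)²)`. Then

* the space `V₂ Sel(E_{cD, h} / F)` of the 2-adic Selmer classes over `F = k'(t)` has no nonzero elements
  which are fixed by the Galois group of `k` (`GeneratedBy k' _ 0`: every invariant class `c` in
  `T₂ Sel` is the coboundary of torsion points). So for the elliptic surface `X` over the projective line with
  this generic fibre the Tate conjecture for divisors at the prime 2 holds, in the form
  `NS(X) ⊗ ℚ₂ = (trivial lattice) ⊗ ℚ₂ = H²(X ⊗ k', ℚ₂(1))^G`, and `(V₂ Br(X ⊗ k'))^G = 0`;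
* the integral version `TateAtTwo` holds, if `a² - 4 b` is not the product of a nonsquare constant and a
  square.

The earlier result `AlmostAllTwists` of this library needs that `b` and `a² - 4 b` are not constants times
squares or norms of polynomials over quadratic extensions of `k`, and that the first descent over `k(t)` is
trivial for `E` and the isogenous curve (`OnlyTrivial`). Here all this is dropped. (In the case `h = t`, and
if the degree of `D` is large with respect to `E`, such statements can also be derived from the theorems of
Katz on the monodromy of twists and from the irreducibility theorem of Hilbert; this does not give all the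
`h` at the same time.)

Proof. It does not use a descent by isogenies. Let `π` be a prime which divides `D` exactly to an odd
power and which does not divide `b (a² - 4 b)`. At the place of `F` at a root of `π` the curve has reduction
of type `I₀*`, and there is an element `γ` of the inertia group which acts on `T₂` as `-1`. As `E_D(F)` has
only 2-torsion of exponent two, an invariant class extends to a cocycle `C` of `Gal(Sep F / K)` after
multiplication by two (`Pool.Agent.Helper55.TT.Lift`), and this can be changed by a coboundary such that
`C γ = 0`; then, as the class is locally trivial at the place and the decomposition group at `π` in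
`Gal(Sep F / K)` normalizes the inertia group, `C` vanishes on the decomposition group
(`Pool.Agent.Helper55.TT.Dec`). So the classes of `C` in the group of order two `E_D[2] / (0, 0)` and then
in `(0, 0)` are given by quadratic characters of `Gal(Sep F / K)` which are unramified outside of
`b (a² - 4 b) D` and trivial on the decomposition group at `π`; that is, by products `u S` of a constant and
a divisor of `b (a² - 4 b) D` which are squares modulo `π`. If only the trivial ones exist (`IndepAt`), `C` is
divisible by two, and so on (`Pool.Agent.Helper55.TT.Crit`).

So it is to be shown that for almost all the `D_l` no product of a constant, a divisor `≠ 1` of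
`b (a² - 4 b)` and some of the other `D_j` is a square in the field generated by a root of `D_l`. By the
density transfer `Pool.Agent.W275.UB` otherwise this happens for a generic `D`, with a bounded number of
polynomial quantities, and one can specialize it to a `p`-adic field with a given embedding of `k` in which
the divisor has a root `ρ` of odd order, and with `D_l` near `(t - ρ)ⁿ - p` (`n` even) or
`(t - ρ - 1) ((t - ρ)ⁿ⁻¹ - p)` (`n` odd). At the roots of the factor of even degree the constants have even
valuation and the value of the divisor has odd valuation, a contradiction (`Pool.Agent.Helper55.TT.LocC`,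
`DenC`, `GoodC`). For the base changes by `h`
see `Pool.Agent.Helper55.TT.OddC`.
-/

namespace Pool.Agent.Results.MP_89bcae_ag.EveryCurveAlmostAllTwists

open Polynomial NumberField Pool.Agent.TH115.GD Pool.Agent.R939.EI Pool.Agent.R939.PP
  Pool.Agent.Helper55.TT

/-- For `100%` of the `D = D₁ ⋯ D_u`, `NoClasses k' K F a b D`: for all `c ≠ 0` and all `h` as above, the
base change by `h` of the twist by `c D` of `y² = x (x² + a x + b)` has no nonzero invariant 2-adic Selmer
classes. -/
theorem result {k k' K F : Type} [Field k] [NumberField k] [Field k'] [Algebra k k'] [Field K]
    [Algebra k[X] K] [Field F] [Algebra k'[X] F] [IsFractionRing k'[X] F] [Algebra K F]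
    (hT : IsTower k k' K F) {J : Type} [Fintype J] (B : Module.Basis J ℤ (𝓞 k)) {a b : k[X]}
    (hb : b ≠ 0) (hd : a ^ 2 - 4 * b ≠ 0) {u : ℕ} (n : Fin u → ℕ) (hn : ∀ l, 1 ≤ n l)
    (h3 : ∃ l, 3 ≤ n l) {η : ℝ} (hη : 0 < η) :
    ∃ H0 : ℕ, ∀ H : ℕ, H0 ≤ H →
      (({x : (l : Fin u) → Fin (n l + 1) → 𝓞 k | (∀ l j t, |B.repr (x l j) t| ≤ (H : ℤ)) ∧
        ¬ NoClasses k' K F a b (∏ l, polA fun j => algebraMap (𝓞 k) k (x l j))}.ncard : ℕ) : ℝ) ≤
        η * (2 * H + 1) ^ (Fintype.card J * ∑ l, (n l + 1)) := by
  obtain ⟨l0, hl0⟩ := h3
  exact all_twists hT B hb hd hn hl0 hη

end Pool.Agent.Results.MP_89bcae_ag.EveryCurveAlmostAllTwists
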