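import Mathlib
import Pool.Graph.R_seed8.TH115.GD.Defs
import Pool.Agent.Helper55.RT.Fin2

/-!
# Outside of a THIN set of the polynomials `D`, over every field of characteristic zero: no new Tate classes
# in the twists by `D` of ANY p-adic local system of the projective line, over all the fields inside Galois
# extensions which do not contain the roots of `D`

Let `k` be any field of characteristic zero (for example a field which is finitely generated over `ℚ`), `k'`
an algebraic closure, `K = k(t)`, `F = k'(t)` and `p` any prime. Let `P ≠ 0` be any polynomial over `k`,
`L / K` any finite extension and `n ≥ 5`.

Theorem. For all the monic polynomials `D` of degree `n` over `k`, with the exception of a thin set (in the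
sense of Serre), the following is true (`VanishGal`). Let `κ` be ANY finite Galois extension of `k` which does
not contain all the roots of `D`, and `k₂` any subfield of `κ`. (As `D` has the Galois group `S_n` outside of a
thin set, `k₂` may be any extension of `k` of degree less than `n`, any extension whose Galois closure is
solvable, or has a degree which is not divisible by `n!`.) Let `K₂ = k₂(t)`, and let `V = ℚ_p ^ d` be ANY
continuous representation of the Galois group of `K₂`, of any dimension `d`, with the invariant lattice
`ℤ_p ^ d`, such that

* the image modulo `p` of the Galois group of `κ(t) L` is a `p`-group;
* `V` is not ramified outside of the roots of `P D` and infinity (over `k'`);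
* the inertia groups at the roots of `D` have no nonzero invariants in `V`.

Then there are no nonzero classes in `H¹(F, V)` which are fixed by the Galois group of `K₂` and locally
trivial at the roots of `D` and at the places of `F` which are not roots of `P D` or infinite (`VanishL`; no
local condition at the other places). The exceptional thin set depends only on `p`, `P`, `L` and `n`, not on
`V`, on its dimension, on `κ` or on `k₂`.

(The local Galois groups of `F` are procyclic, hence `V^I = 0` implies that all the classes are trivial at the
roots of `D`: the theorem says that `H¹(U, V)` has no nonzero classes fixed by the Galois group of `k₂`, where
`U` is the complement of the roots of `P D` and infinity in the projective line over `k'`.)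

If `k` is Hilbertian, for example finitely generated over `ℚ`, the complement of a thin set in `k ^ n` is
Zariski dense; if `k` is a number field it has density one.

Relation to the Tate conjecture. Every representation `V₀` of the Galois group of `K` satisfies the first
condition for a suitable `L`, and if it comes from geometry it is not ramified outside of the roots of some
`P` and infinity. The theorem can be applied to all the twists `V = V₀ ⊗ W`, where `W` is the new part of the
permutation representation of the covering `C_D : s^q = D(t)`, `q = p ^ m`. Let `f : Y → ℙ¹` be a smooth
projective variety over `k` with a map to the projective line, and `Y_D` a smooth model of the pull-back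
`Y ×_{ℙ¹} C_D`. For `V₀ = H^{2j-1}(Y_t, ℚ_p(j))` the theorem says that the part `H¹(ℙ¹, j_* (V₀ ⊗ W))` of
`H^{2j}(Y_D, ℚ_p(j))` contains no nonzero Tate classes fixed by the Galois group of any of the fields `k₂`:
over `k₂` the only Tate classes of `Y_D` are those of `Y` and those which come from the even cohomology of
the fibres. As there is no local condition at the roots of `P` and infinity the same is true for open
varieties, and as the exceptional set does not depend on `V`, the same `D` can be used for all
`V₀^{⊗ a} ⊗ (V₀^*)^{⊗ b} (j)`, that is for all the powers of the fibres and all degrees at the same time, for
all abelian schemes of all dimensions with good reduction outside of `P` and infinity and points of order `p`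
in `L` (or in a `p`-extension of `L`), and for all the `q = p ^ m`. In
particular for divisors on surfaces (`j = 1`): for every fibred surface `Y → ℙ¹` over `k`, every `q = p ^ m` and
all `D` outside of a thin set, the Tate conjecture at `p` for divisors on `Y_D` over all the fields `k₂` follows
from the one for `Y` (which is known for instance for rational, K3 and abelian surfaces and products of
curves), and for every abelian variety `A` over `k(t)`, `k` finitely generated, the twist `A_D(k₂(t))` is finite
for all the `k₂`.

For a single `V₀` and large `n` such statements follow from the big monodromy theorems of Katz (Twisted
L-functions and monodromy) and Hilbert's irreducibility theorem (Serre, Terasoma). This method cannot be used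
for infinitely many `V₀` at the same time. The first theorem of this kind (number fields, density instead of
thin sets, and only the fields `k₂` which are linearly disjoint from an extension `M_D` of bounded degree) is
in Pool/Agent/Results/MP_938ce2_ag.

Proof. As in the case of number fields (see Pool/Agent/Results/MP_938ce2_ag/EveryFamilyAlmostAllTwists.lean)
a class `C ≠ 0` over `κ(t)` leads to a character `χ` of order `p` of the Galois group of `κ(t) L` which
vanishes at the conjugates of the decomposition groups of the roots of `D`. There are finitely many
possibilities for `χ` over `F`, which do not depend on `D` (a finiteness theorem for the Jacobian of the curve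
given by `L`, with an elementary proof), and this gives a contradiction if `D` is irreducible over `κ`, if the
decomposition group at a root of `D` maps onto the Galois group of a certain fixed extension `L2` of `K`, and
if no product `u S` of a constant of `κ` and a divisor of a power of `P` is a `p`-th power modulo `D`. What is
new is that these three facts hold for all `κ` at the same time. Outside of a thin set the Galois group of
`D` and of the residue fields of `L2` at the roots of `D`, over a fixed extension `κ₀` of `k`, is the full
wreath product with `S_n` (`Q_SL`, `Q_DOM`, `Q_ABS`, `Q_WRT`: the generic wreath product algebra is a domain
which is finite over `k[a₁, …, aₙ]`). If the Galois extension `κ` does not contain the roots of `D` then the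
Galois group over `κ κ₀` is a normal subgroup which is not contained in the base group: so its image in `S_n`
contains `A_n` (`Q_GRP`, `Q_SPT`), `D` remains irreducible (`Q_IRD`), commutators show that the group acts
transitively on the roots of the residue polynomials with `θ` fixed (`Q_CMM`, `Q_MIR`), and there are no
relations `u S(θ) = w ^ p` (`Q_IDP`, `Q_ABP`).

All the definitions used in the statement are in Pool/Agent/Helper55/RT/Def.lean, Pool/Agent/Helper55/RL/Def.lean
and, for `Sep`, `Comp` and `IsTower`, in Pool/Graph/R_seed8/TH115/GD/Defs.lean.
-/

namespace Pool.Agent.Results.MP_89bcae_ag.ThinExceptionalTwists

open Polynomial Pool.Agent.TH115.GD Pool.Agent.Helper55.RL Pool.Agent.Helper55.RT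

/-- Outside of a thin subset of `k ^ n` (`OutsideThin`), for `D = X ^ n + a_{n-1} X ^ (n-1) + ⋯ + a₀`
(`monicPoly a`): for all the finite Galois extensions `κ` of `k` which do not contain all the roots of `D`, all
subfields `k₂` of `κ` and all representations `V` of the Galois group of `k₂(t)` as above, the fixed classes in
`H¹(F, V)` vanish (`VanishGal`). -/
theorem result (p : ℕ) [Fact p.Prime] {k k' K F : Type} [Field k] [CharZero k] [Field k']
    [Algebra k k'] [Field K] [Algebra k[X] K] [Field F] [Algebra k'[X] F] [IsFractionRing k'[X] F]
    [Algebra K F] (hT : IsTower k k' K F) (L : IntermediateField K (Sep F))
    [FiniteDimensional K L] {P : k[X]} (hP : P ≠ 0) {n : ℕ} (hn : 5 ≤ n) :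
    OutsideThin fun a : Fin n → k => VanishGal p k' K F L P (monicPoly a) :=
  gal_fin p hT L hP hn

end Pool.Agent.Results.MP_89bcae_ag.ThinExceptionalTwists
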