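import Mathlib
import Pool.Graph.R_seed8.TH115.GD.Defs
import Pool.Agent.Helper55.UV.Unif

/-!
# For 100% of the polynomials `D`: no Tate classes in the first cohomology of ANY 2-adic local system of the
# projective line with pro-2 monodromy, ramified only at `P D` and totally ramified at a factor of `D`

Let `k` be a number field, `k'` an algebraic closure, `K = k(t)`, `F = k'(t)`, and let `P ≠ 0` be any
polynomial over `k`. Fix degrees `n₁, ..., n_u ≥ 1` and let `D₁, ..., D_u`, `deg D_l ≤ n_l`, run through the
polynomials whose coefficients are integers of `k` with coordinates between `-H` and `H`.

Theorem. For all of them, with the exception of a proportion which tends to zero if `H` tends to infinity,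
the following holds (`VanishAll`) for all the factors `D_l` of degree at least three, and for ALL the
polynomials `h` of odd degree such that the prime divisors of `P` remain prime after `t ↦ h(t)` and such that
`h` is monic with coefficients integers of `k` (or, for the other `h`, the `D_j` remain prime after
`t ↦ h(t)`), for instance for `h = t`. Let `V = ℚ₂ ^ d` be ANY continuous representation `ρ` of the Galois
group of `K`, of any dimension `d`, with the invariant lattice `ℤ₂ ^ d`, such that

* the image of `ρ` modulo 2 is a 2-group (the image of `ρ` is a pro-2 group);
* `ρ` is not ramified outside of the roots of `(P D₁ ⋯ D_u)(h(t))` and infinity;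
* the inertia groups at the roots of `D_l(h(t))` have no nonzero invariants in `V`.

Then there are no nonzero classes in `H¹(F, V)` which are fixed by the Galois group of `k`, and are locally
trivial at the roots of `D_l(h(t))` and at the places of `F` which are not roots of `(P D₁ ⋯ D_u)(h(t))`
or infinite. (No local condition at the other places.)

The exceptional set of the `D` does not depend on `V`, on its dimension or on `h`.

Relation to the Tate conjecture. Let `X → ℙ¹` be a surface over `k` with the generic fibre `C / K`, and let
`V = V₂ J` be the Tate module of the Jacobian of `C`. Then `H²(X ⊗ k', ℚ₂(1))` is the sum of the span of the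
classes of the components of the fibres and of a horizontal curve, and of `H¹(ℙ¹ ⊗ k', j_* V)`, which is
the group of the locally trivial classes in `H¹(F, V)`. So if all fixed classes in `H¹(F, V)` vanish the
Tate conjecture for divisors at 2 holds for `X` over `k`, `J(K)` is finite and `(V₂ Br(X ⊗ k'))^G = 0`.
For example let `C : y² = f(x)` be any hyperelliptic curve over `K`, `f` a polynomial of any degree over
`K`, whose Galois group over `K` is a 2-group (for instance all roots are in `K`, or `f` is a product of
linear and quadratic polynomials; if `f` has degree 3, these are the elliptic curves with a rational point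
of order two). Let `P` be such that `C` has good reduction outside of the roots of `P` and
infinity. Then for 100% of the `D` the theorem can be applied to the quadratic twists `c D y² = f(x)`, for
all the constants `c`, and all their base changes by the `h` at the same time: at the roots of `D_l` the
inertia group acts by `-1`. It can also be applied to the twists by `D(h)` of the constant representations
`V₂ A`, `A` an abelian variety over `k` whose points of order two generate a 2-extension of `k` (then it says
that the Jacobian of the curve `s² = D(h(t))` has no isogeny factor in common with `A`, for all these `A` at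
the same time), to fibrations with other additive fibres at the roots of `D_l`, and to the cohomology of
families of varieties of all dimensions.

Proof. Let `π = D_l` and let `I` be the inertia group at a root `θ` of `π`, with decomposition group `D_θ` in
the Galois group `Γ` of `K`. As `V^I = 0`, a fixed class extends to a cocycle `C : Γ → V` which vanishes on
`I` after a change by a coboundary; since `D_θ` normalizes `I` and `V^I = 0` it vanishes on `D_θ`; it is
continuous and bounded (`Pool.Agent.Helper55.UV.Ext`). Let `T` be an invariant lattice with `C(Γ)` in `T`, and
`T'` minimal among the invariant groups with `2 T ≤ T' ≤ T` which contain `C(Γ)`. If `T' ≠ 2 T` there is a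
nonzero `Γ`-homomorphism from `T'` to the group of order two, since a 2-group acts. Composed with `C` it
gives a quadratic character of `Γ` which is trivial on `D_θ` and unramified outside of `P D`: a product `u S`
of a constant and a divisor of `P D` which is a square modulo `π`. If only squares have this property
(`IndepAt`) we find `C(Γ) ≤ 2 T`, then `C(Γ) ≤ 4 T`, and so on, so `C = 0` (`Pool.Agent.Helper55.UV.Crit`,
valid for all fields `k` with `2 ≠ 0`). That almost all the `D` satisfy `IndepAt` is shown by specialization
of the generic `D` to `p`-adic fields (`Pool.Agent.Helper55.TT.DenC`, `GoodC`, `FinC`).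
-/

namespace Pool.Agent.Results.MP_89bcae_ag.UniformVanishing

open Polynomial NumberField Pool.Agent.TH115.GD Pool.Agent.R939.EI Pool.Agent.Helper55.UV

/-- For `100%` of the `D = (D₁, ..., D_u)`, `VanishAll k' K F P D`: for all `h` as above and all `D_l` of
degree at least three, `Vanish k' K F ((P ∏ D_j)(h)) (D_l(h))`: no nonzero fixed classes in `H¹(F, V)` for
all `V`. -/
theorem result {k k' K F : Type} [Field k] [NumberField k] [Field k'] [Algebra k k'] [Field K]
    [Algebra k[X] K] [Field F] [Algebra k'[X] F] [IsFractionRing k'[X] F] [Algebra K F]
    (hT : IsTower k k' K F) {J : Type} [Fintype J] (B : Module.Basis J ℤ (𝓞 k)) {P : k[X]}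
    (hP : P ≠ 0) {u : ℕ} (n : Fin u → ℕ) (hn : ∀ l, 1 ≤ n l) {η : ℝ} (hη : 0 < η) :
    ∃ H0 : ℕ, ∀ H : ℕ, H0 ≤ H →
      (({x : (l : Fin u) → Fin (n l + 1) → 𝓞 k | (∀ l j t, |B.repr (x l j) t| ≤ (H : ℤ)) ∧
        ¬ VanishAll k' K F P (fun l => polA fun j => algebraMap (𝓞 k) k (x l j))}.ncard : ℕ) : ℝ) ≤
        η * (2 * H + 1) ^ (Fintype.card J * ∑ l, (n l + 1)) :=
  vanish_all hT B hP hn hη

end Pool.Agent.Results.MP_89bcae_ag.UniformVanishing
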